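import Pool.Agent.K1H72.OP.Stm

/-!
Project OP (helper61), piece `S_LP`: logarithm of an infinite product.
-/

namespace K1H72.OP

open Complex Filter Topology

theorem t_LP : S_LP := by
  intro q w hq hw
  set ρ : ℝ := ‖q‖ with hρ
  have hρ0 : 0 ≤ ρ := norm_nonneg q
  have hgeo : Summable fun j : ℕ => ρ ^ j := summable_geometric_of_lt_one hρ0 hq
  -- the double family
  set f : ℕ → ℕ → ℂ := fun m j => w ^ (m + 1) / ((m : ℂ) + 1) * (q ^ (m + 1)) ^ (j + 1) with hf
  have hfb : ∀ m j, ‖f m j‖ ≤ ρ ^ m * ρ ^ j := by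
    intro m j
    rw [hf]
    simp only [norm_mul, norm_div, norm_pow]
    have h1 : ‖w‖ ^ (m + 1) / ‖(m : ℂ) + 1‖ ≤ 1 := by
      have h2 : ‖(m : ℂ) + 1‖ = (m : ℝ) + 1 := by
        have : ((m : ℂ) + 1) = ((m + 1 : ℕ) : ℂ) := by push_cast; ring
        rw [this, Complex.norm_natCast]; push_cast; ring
      rw [h2, div_le_one (by positivity)]
      calc ‖w‖ ^ (m + 1) ≤ 1 := pow_le_one₀ (norm_nonneg w) hw
        _ ≤ (m : ℝ) + 1 := by have : (0 : ℝ) ≤ m := Nat.cast_nonneg m; linarith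
    have h3 : (ρ ^ (m + 1)) ^ (j + 1) ≤ ρ ^ m * ρ ^ j := by
      rw [← pow_mul, ← pow_add]
      exact pow_le_pow_of_le_one hρ0 hq.le (by nlinarith)
    calc ‖w‖ ^ (m + 1) / ‖(m : ℂ) + 1‖ * (ρ ^ (m + 1)) ^ (j + 1) ≤
        1 * (ρ ^ m * ρ ^ j) := mul_le_mul h1 h3 (by positivity) (by norm_num)
      _ = _ := one_mul _
  have hsum2 : Summable (Function.uncurry f) := by
    have h1 : Summable fun p : ℕ × ℕ => ρ ^ p.1 * ρ ^ p.2 :=
      hgeo.mul_of_nonneg hgeo (fun _ => by positivity) (fun _ => by positivity)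
    exact Summable.of_norm_bounded h1 fun p => hfb p.1 p.2
  have hqm : ∀ m : ℕ, ‖q ^ (m + 1)‖ < 1 := by
    intro m
    rw [norm_pow]
    exact pow_lt_one₀ hρ0 hq (Nat.succ_ne_zero m)
  have hin : ∀ m, HasSum (f m)
      (w ^ (m + 1) / ((m : ℂ) + 1) * (q ^ (m + 1) / (1 - q ^ (m + 1)))) := by
    intro m
    have h1 := (hasSum_geometric_of_norm_lt_one (hqm m)).mul_left (q ^ (m + 1))
    have h2 := h1.mul_left (w ^ (m + 1) / ((m : ℂ) + 1))
    have e : (fun i : ℕ => w ^ (m + 1) / ((m : ℂ) + 1) * (q ^ (m + 1) * (q ^ (m + 1)) ^ i)) =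
        f m := by
      funext j
      simp only [hf, pow_succ (q ^ (m + 1)) j]
      ring
    rw [e, ← div_eq_mul_inv] at h2
    exact h2
  constructor
  · have h1 : Summable fun m : ℕ => ρ ^ m * (1 - ρ)⁻¹ := hgeo.mul_right _
    refine Summable.of_nonneg_of_le (fun _ => norm_nonneg _) (fun m => ?_) h1
    rw [← (hin m).tsum_eq]
    refine tsum_of_norm_bounded ((hasSum_geometric_of_lt_one hρ0 hq).mul_left (ρ ^ m))
      fun j => hfb m j
  · have hxn : ∀ j : ℕ, ‖w * q ^ (j + 1)‖ < 1 := by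
      intro j
      rw [norm_mul]
      calc ‖w‖ * ‖q ^ (j + 1)‖ ≤ 1 * ‖q ^ (j + 1)‖ :=
            mul_le_mul_of_nonneg_right hw (norm_nonneg _)
        _ < 1 := by rw [one_mul]; exact hqm j
    have hne : ∀ j : ℕ, (1 - w * q ^ (j + 1)) ≠ 0 := by
      intro j h
      have h1 := sub_eq_zero.1 h
      have h2 := hxn j
      rw [← h1] at h2
      simp at h2
    have hlog : ∀ j : ℕ, HasSum (fun m => f m j) (-log (1 - w * q ^ (j + 1))) := by
      intro j
      have h1 := hasSum_taylorSeries_neg_log' (hxn j)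
      have e : (fun n : ℕ => (w * q ^ (j + 1)) ^ (n + 1) / ((n : ℂ) + 1)) = fun m => f m j := by
        funext m
        simp only [hf, mul_pow, ← pow_mul]
        rw [mul_comm (j + 1) (m + 1)]
        ring
      rw [e] at h1
      exact h1
    have hlogs : Summable fun j : ℕ => log (1 - w * q ^ (j + 1)) := by
      have h1 : Summable fun j : ℕ => ∑' m, f m j := by
        have := hsum2.prod_symm.prod
        exact this
      have h2 : (fun j : ℕ => ∑' m, f m j) = fun j => -log (1 - w * q ^ (j + 1)) := by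
        funext j
        exact (hlog j).tsum_eq
      rw [h2] at h1
      simpa using h1.neg
    rw [← cexp_tsum_eq_tprod hne hlogs]
    congr 1
    have h3 : ∑' j : ℕ, log (1 - w * q ^ (j + 1)) = -∑' j : ℕ, ∑' m, f m j := by
      rw [← tsum_neg]
      refine tsum_congr fun j => ?_
      rw [(hlog j).tsum_eq, neg_neg]
    rw [h3, hsum2.tsum_comm]
    congr 1
    exact tsum_congr fun m => (hin m).tsum_eq

end K1H72.OP
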