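import Pool.Agent.K1H72.OP.Stm

/-!
Project OP (helper61), pieces `S_R0L` and `S_R0S`.
-/

namespace K1H72.OP

open Complex Filter Topology

lemma H61.norm_qq (t θ : ℝ) : ‖qq t θ‖ = Real.exp (-t) := by
  rw [qq, Complex.norm_exp]
  congr 1
  simp [tau]

/-- the `m`-th term of the logarithm of `R0` -/
noncomputable def H61.zt (q : ℂ) (m : ℕ) : ℂ :=
  (-1 / 3 : ℂ) ^ (m + 1) / ((m : ℂ) + 1) * (q ^ (m + 1) / (1 - q ^ (m + 1)))

open H61 in
lemma H61.R0_eq (h : S_LP) {q : ℂ} (hq : ‖q‖ < 1) :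
    Summable (fun m => ‖zt q m‖) ∧ R0 q = (4 / 3 : ℂ) * Complex.exp (-∑' m, zt q m) := by
  have h1 := h q (-1 / 3) hq (by norm_num)
  refine ⟨h1.1, ?_⟩
  have h2 : Multipliable fun j : ℕ => (1 + q ^ (j + 1) / 3 : ℂ) := by
    apply multipliable_one_add_of_summable
    have : Summable fun j : ℕ => ‖q‖ ^ j * (‖q‖ / 3) :=
      (summable_geometric_of_lt_one (norm_nonneg q) hq).mul_right _
    refine this.congr fun j => ?_
    rw [norm_div, norm_pow, pow_succ]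
    norm_num
    ring
  unfold R0
  rw [tprod_eq_zero_mul' h2]
  have h3 : ∏' j : ℕ, (1 + q ^ (j + 1) / 3 : ℂ) = ∏' j : ℕ, (1 - (-1 / 3) * q ^ (j + 1)) := by
    refine tprod_congr fun j => ?_
    ring
  rw [h3, h1.2]
  unfold zt
  norm_num

lemma H61.re_ge {x : ℂ} (hx : ‖x‖ < 1) : -(1 / 2) ≤ (x / (1 - x)).re := by
  have hne : (1 - x) ≠ 0 := by
    intro h
    rw [← sub_eq_zero.1 h] at hx
    simp at hx
  have e : x / (1 - x) = (1 - x)⁻¹ - 1 := by
    field_simp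
    ring
  have hn : 0 < Complex.normSq (1 - x) := Complex.normSq_pos.2 hne
  have h2 : x.re ^ 2 + x.im ^ 2 < 1 := by
    have h3 : Complex.normSq x < 1 := by
      rw [Complex.normSq_eq_norm_sq]
      have := norm_nonneg x
      nlinarith
    rw [Complex.normSq_apply] at h3
    nlinarith
  rw [e, Complex.sub_re, Complex.inv_re, Complex.one_re]
  have h4 : (1 / 2 : ℝ) ≤ (1 - x).re / Complex.normSq (1 - x) := by
    rw [le_div_iff₀ hn, Complex.normSq_apply]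
    simp only [Complex.sub_re, Complex.one_re, Complex.sub_im, Complex.one_im]
    nlinarith
  linarith

lemma H61.norm_le {x : ℂ} {y : ℝ} (hy : 0 < y) (hx : ‖x‖ = Real.exp (-y)) :
    ‖x / (1 - x)‖ ≤ 1 / y := by
  have h1 : Real.exp (-y) < 1 := by rw [Real.exp_lt_one_iff]; linarith
  have h2 : 1 - Real.exp (-y) ≤ ‖1 - x‖ := by
    have := norm_sub_norm_le (1 : ℂ) x
    rw [norm_one, hx] at this
    exact this
  have h3 : 0 < ‖1 - x‖ := by linarith
  rw [norm_div, hx, div_le_div_iff₀ h3 hy, one_mul]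
  refine le_trans ?_ h2
  have h4 := Real.add_one_le_exp y
  have h5 : Real.exp (-y) * Real.exp y = 1 := by rw [← Real.exp_add]; simp
  have h6 := Real.exp_pos (-y)
  nlinarith

open H61 in
theorem t_R0L (h : S_LP) : S_R0L := by
  intro t θ ht
  have hq : ‖qq t θ‖ < 1 := by
    rw [norm_qq, Real.exp_lt_one_iff]; linarith
  obtain ⟨hs, hR⟩ := R0_eq h hq
  rw [hR, norm_mul, Complex.norm_exp]
  have h43 : ‖(4 / 3 : ℂ)‖ = 4 / 3 := by norm_num
  rw [h43]
  refine mul_le_mul_of_nonneg_left ?_ (by norm_num)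
  rw [Real.exp_le_exp, Complex.neg_re, Complex.re_tsum hs.of_norm]
  -- termwise bounds
  have hqn : ∀ m : ℕ, ‖qq t θ ^ (m + 1)‖ = Real.exp (-(((m : ℝ) + 1) * t)) := by
    intro m
    rw [norm_pow, norm_qq, ← Real.exp_nat_mul]
    push_cast
    congr 1
    ring
  have hre : ∀ m : ℕ, (zt (qq t θ) m).re =
      (-1 / 3 : ℝ) ^ (m + 1) / ((m : ℝ) + 1) * (qq t θ ^ (m + 1) / (1 - qq t θ ^ (m + 1))).re := by
    intro m
    have e : zt (qq t θ) m = (((-1 / 3 : ℝ) ^ (m + 1) / ((m : ℝ) + 1) : ℝ) : ℂ) *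
        (qq t θ ^ (m + 1) / (1 - qq t θ ^ (m + 1))) := by
      unfold zt
      push_cast
      ring
    rw [e, Complex.re_ofReal_mul]
  have hA : ∀ k : ℕ, (zt (qq t θ) (2 * k)).re ≤ (1 / 9 : ℝ) ^ k / (6 * (2 * k + 1)) := by
    intro k
    rw [hre]
    have h1 : -(1 / 2) ≤ (qq t θ ^ (2 * k + 1) / (1 - qq t θ ^ (2 * k + 1))).re := by
      apply re_ge
      rw [hqn, Real.exp_lt_one_iff]
      have : 0 < ((2 * k : ℕ) : ℝ) + 1 := by positivity
      nlinarith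
    have h2 : (-1 / 3 : ℝ) ^ (2 * k + 1) = -((1 / 9) ^ k / 3) := by
      rw [pow_succ, pow_mul]
      norm_num
      ring
    rw [h2]
    push_cast
    have h3 : (0 : ℝ) < 2 * k + 1 := by positivity
    have h4 : (0 : ℝ) < (1 / 9 : ℝ) ^ k := by positivity
    have h5 : 0 < (1 / 9 : ℝ) ^ k / 3 / (2 * k + 1) := by positivity
    have e1 : (1 / 9 : ℝ) ^ k / (6 * (2 * k + 1)) = (1 / 9 : ℝ) ^ k / 3 / (2 * k + 1) * (1 / 2) := by
      field_simp
      norm_num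
    have e2 : -((1 / 9 : ℝ) ^ k / 3) / (2 * k + 1) = -((1 / 9 : ℝ) ^ k / 3 / (2 * k + 1)) := by
      ring
    rw [e1, e2]
    nlinarith
  have hB : ∀ k : ℕ, (zt (qq t θ) (2 * k + 1)).re ≤ (1 / 9 : ℝ) ^ (k + 1) / (2 * k + 2) ^ 2 * (1 / t) := by
    intro k
    rw [hre]
    have h1 : (qq t θ ^ (2 * k + 1 + 1) / (1 - qq t θ ^ (2 * k + 1 + 1))).re ≤
        1 / ((((2 * k + 1 : ℕ) : ℝ) + 1) * t) := by
      refine (Complex.re_le_norm _).trans ?_
      exact norm_le (by positivity) (hqn _)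
    have h2 : (-1 / 3 : ℝ) ^ (2 * k + 1 + 1) = (1 / 9) ^ (k + 1) := by
      have : 2 * k + 1 + 1 = 2 * (k + 1) := by ring
      rw [this, pow_mul]
      norm_num
    rw [h2]
    push_cast at h1 ⊢
    have e0 : (2 * (k : ℝ) + 1 + 1) = 2 * k + 2 := by ring
    rw [e0] at h1 ⊢
    have h4 : (0 : ℝ) < (1 / 9 : ℝ) ^ (k + 1) / (2 * k + 2) := by positivity
    calc _ ≤ (1 / 9 : ℝ) ^ (k + 1) / (2 * k + 2) * (1 / ((2 * k + 2) * t)) :=
          mul_le_mul_of_nonneg_left h1 h4.le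
      _ = _ := by field_simp
  -- the sums
  have hsre : Summable fun m => (zt (qq t θ) m).re :=
    (Complex.hasSum_re hs.of_norm.hasSum).summable
  have hsE : Summable fun k => (zt (qq t θ) (2 * k)).re :=
    hsre.comp_injective (fun a b hab => by simpa using hab)
  have hsO : Summable fun k => (zt (qq t θ) (2 * k + 1)).re :=
    hsre.comp_injective (fun a b hab => by simpa using hab)
  rw [← tsum_even_add_odd hsE hsO]
  have hg : Summable fun k : ℕ => (1 / 9 : ℝ) ^ k :=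
    summable_geometric_of_lt_one (by norm_num) (by norm_num)
  have hgt : ∑' k : ℕ, (1 / 9 : ℝ) ^ k = 9 / 8 := by
    rw [tsum_geometric_of_lt_one (by norm_num) (by norm_num)]; norm_num
  have hαs : Summable fun k : ℕ => (1 / 9 : ℝ) ^ k / (6 * (2 * k + 1)) := by
    refine Summable.of_nonneg_of_le (fun k => by positivity) (fun k => ?_) hg
    apply div_le_self (by positivity)
    have : (0 : ℝ) ≤ k := Nat.cast_nonneg k
    linarith
  have hβs : Summable fun k : ℕ => (1 / 9 : ℝ) ^ (k + 1) / (2 * k + 2) ^ 2 := by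
    refine Summable.of_nonneg_of_le (fun k => by positivity) (fun k => ?_) (hg.mul_right (1 / 9))
    rw [← pow_succ]
    apply div_le_self (by positivity)
    have : (0 : ℝ) ≤ k := Nat.cast_nonneg k
    nlinarith
  have hα : ∑' k : ℕ, (1 / 9 : ℝ) ^ k / (6 * (2 * k + 1)) ≤ 1735 / 10000 := by
    rw [← hαs.sum_add_tsum_nat_add 2]
    have h1 : ∑' k : ℕ, (1 / 9 : ℝ) ^ (k + 2) / (6 * (2 * ((k + 2 : ℕ) : ℝ) + 1)) ≤
        ∑' k : ℕ, (1 / 9 : ℝ) ^ k * (1 / 81 / 30) := by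
      refine Summable.tsum_le_tsum (fun k => ?_)
        ((summable_nat_add_iff 2).2 hαs) (hg.mul_right _)
      rw [pow_add]
      have h2 : (30 : ℝ) ≤ 6 * (2 * ((k + 2 : ℕ) : ℝ) + 1) := by
        push_cast
        have : (0 : ℝ) ≤ k := Nat.cast_nonneg k
        linarith
      calc (1 / 9 : ℝ) ^ k * (1 / 9) ^ 2 / (6 * (2 * ((k + 2 : ℕ) : ℝ) + 1)) ≤
          (1 / 9 : ℝ) ^ k * (1 / 9) ^ 2 / 30 :=
            div_le_div_of_nonneg_left (by positivity) (by norm_num) h2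
        _ = _ := by ring
    rw [tsum_mul_right, hgt] at h1
    have h2 : ∑ k ∈ Finset.range 2, (1 / 9 : ℝ) ^ k / (6 * (2 * (k : ℝ) + 1)) = 1 / 6 + 1 / 162 := by
      simp [Finset.sum_range_succ]
      norm_num
    rw [h2]
    linarith
  have hβ : ∑' k : ℕ, (1 / 9 : ℝ) ^ (k + 1) / (2 * k + 2) ^ 2 ≤ 286 / 10000 := by
    rw [← hβs.sum_add_tsum_nat_add 2]
    have h1 : ∑' k : ℕ, (1 / 9 : ℝ) ^ (k + 2 + 1) / (2 * ((k + 2 : ℕ) : ℝ) + 2) ^ 2 ≤
        ∑' k : ℕ, (1 / 9 : ℝ) ^ k * (1 / 729 / 36) := by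
      refine Summable.tsum_le_tsum (fun k => ?_)
        ((summable_nat_add_iff 2).2 hβs) (hg.mul_right _)
      rw [add_assoc, pow_add]
      have h2 : (36 : ℝ) ≤ (2 * ((k + 2 : ℕ) : ℝ) + 2) ^ 2 := by
        push_cast
        have : (0 : ℝ) ≤ k := Nat.cast_nonneg k
        nlinarith
      calc (1 / 9 : ℝ) ^ k * (1 / 9) ^ (2 + 1) / (2 * ((k + 2 : ℕ) : ℝ) + 2) ^ 2 ≤
          (1 / 9 : ℝ) ^ k * (1 / 9) ^ (2 + 1) / 36 :=
            div_le_div_of_nonneg_left (by positivity) (by norm_num) h2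
        _ = _ := by ring
    rw [tsum_mul_right, hgt] at h1
    have h2 : ∑ k ∈ Finset.range 2, (1 / 9 : ℝ) ^ (k + 1) / (2 * (k : ℝ) + 2) ^ 2 =
        1 / 36 + 1 / 1296 := by
      simp [Finset.sum_range_succ]
      norm_num
    rw [h2]
    linarith
  have h1 := Summable.tsum_le_tsum hA hsE hαs
  have h2 := Summable.tsum_le_tsum hB hsO (hβs.mul_right _)
  rw [tsum_mul_right] at h2
  have h3 : (∑' k : ℕ, (1 / 9 : ℝ) ^ (k + 1) / (2 * k + 2) ^ 2) * (1 / t) ≤ 286 / 10000 * (1 / t) :=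
    mul_le_mul_of_nonneg_right hβ (by positivity)
  have e : (286 / 10000 : ℝ) * (1 / t) = 286 / 10000 / t := by ring
  rw [e] at h3
  linarith

end K1H72.OP
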