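import Pool.Agent.K1H61.OP.R0

/-!
Project OP (helper61), piece `S_R0S`: the product `R0` in the sector.
-/

namespace K1H72.OP

open Complex Filter Topology

open H61

private lemma nz_le {z : ℂ} (h0 : 0 < z.re) (h : |z.im| ≤ z.re) : ‖z‖ ≤ 3 / 2 * z.re := by
  have h1 : ‖z‖ ^ 2 = z.re ^ 2 + z.im ^ 2 := by
    rw [← Complex.normSq_eq_norm_sq, Complex.normSq_apply]; ring
  have h2 : z.im ^ 2 ≤ z.re ^ 2 := by
    rw [← sq_abs z.im]
    exact pow_le_pow_left₀ (abs_nonneg _) h 2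
  apply le_of_sq_le_sq _ (by linarith)
  rw [h1]
  nlinarith

private lemma conv_exp {z : ℂ} (h0 : 0 < z.re) :
    Complex.exp z - 1 ≠ 0 ∧
      Complex.exp (-z) / (1 - Complex.exp (-z)) = 1 / (Complex.exp z - 1) := by
  have h1 : Complex.exp z ≠ 1 := by
    intro h
    have h2 := congrArg norm h
    rw [Complex.norm_exp, norm_one] at h2
    have h3 := Real.one_lt_exp_iff.2 h0
    linarith
  have h2 : Complex.exp z - 1 ≠ 0 := sub_ne_zero.2 h1
  refine ⟨h2, ?_⟩
  rw [Complex.exp_neg]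
  have h3 := Complex.exp_ne_zero z
  have h4 : (1 - (Complex.exp z)⁻¹) ≠ 0 := by
    intro h
    apply h2
    have : Complex.exp z * (1 - (Complex.exp z)⁻¹) = 0 := by rw [h, mul_zero]
    rw [mul_sub, mul_one, mul_inv_cancel₀ h3] at this
    exact this
  rw [div_eq_div_iff h4 h2]
  field_simp

private lemma key {z : ℂ} (h0 : 0 < z.re) (h : |z.im| ≤ z.re) :
    ‖Complex.exp (-z) / (1 - Complex.exp (-z)) - 1 / z + 1 / 2‖ ≤ 3 * ‖z‖ := by
  have hz : z ≠ 0 := by
    rintro rfl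
    simp at h0
  have hzn : 0 < ‖z‖ := norm_pos_iff.2 hz
  obtain ⟨hne, hc⟩ := conv_exp h0
  rcases le_or_gt ‖z‖ 1 with h1 | h1
  · rw [hc]
    have b2 := Complex.exp_bound h1 (n := 2) (by norm_num)
    have b3 := Complex.exp_bound h1 (n := 3) (by norm_num)
    simp only [Finset.sum_range_succ, Finset.sum_range_zero] at b2 b3
    norm_num [Nat.factorial] at b2 b3
    set ρ : ℂ := Complex.exp z - (1 + z + z ^ 2 / 2) with hρ
    have e1 : Complex.exp z - 1 = z + z ^ 2 / 2 + ρ := by rw [hρ]; ring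
    have e2 : 1 / (Complex.exp z - 1) - 1 / z + 1 / 2 =
        (z ^ 3 / 4 - ρ * (1 - z / 2)) / (z * (Complex.exp z - 1)) := by
      rw [eq_div_iff (mul_ne_zero hz hne)]
      have : (1 / (Complex.exp z - 1) - 1 / z + 1 / 2) * (z * (Complex.exp z - 1)) =
          z - (Complex.exp z - 1) + z * (Complex.exp z - 1) / 2 := by
        field_simp
      rw [this, e1]
      ring
    have n1 : ‖z ^ 3 / 4 - ρ * (1 - z / 2)‖ ≤ 7 / 12 * ‖z‖ ^ 3 := by
      have a1 : ‖z ^ 3 / 4‖ = ‖z‖ ^ 3 / 4 := by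
        rw [norm_div, norm_pow]; norm_num
      have a2 : ‖1 - z / 2‖ ≤ 3 / 2 := by
        have := norm_sub_le (1 : ℂ) (z / 2)
        rw [norm_div, norm_one] at this
        norm_num at this
        linarith
      have a3 : ‖ρ * (1 - z / 2)‖ ≤ ‖z‖ ^ 3 * (2 / 9) * (3 / 2) := by
        rw [norm_mul]
        exact mul_le_mul b3 a2 (norm_nonneg _) (by positivity)
      have a4 := norm_sub_le (z ^ 3 / 4) (ρ * (1 - z / 2))
      rw [a1] at a4
      linarith
    have n2 : ‖z‖ / 4 ≤ ‖Complex.exp z - 1‖ := by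
      have a1 : Complex.exp z - 1 = z + (Complex.exp z - (1 + z)) := by ring
      have a2 := norm_sub_le_norm_add z (Complex.exp z - (1 + z))
      rw [← a1] at a2
      nlinarith
    rw [e2, norm_div, norm_mul, div_le_iff₀ (by positivity)]
    calc ‖z ^ 3 / 4 - ρ * (1 - z / 2)‖ ≤ 7 / 12 * ‖z‖ ^ 3 := n1
      _ ≤ 3 * ‖z‖ * (‖z‖ * (‖z‖ / 4)) := by
          have : 0 < ‖z‖ ^ 3 := by positivity
          nlinarith
      _ ≤ 3 * ‖z‖ * (‖z‖ * ‖Complex.exp z - 1‖) := by gcongr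
  · have n1 : ‖Complex.exp (-z) / (1 - Complex.exp (-z))‖ ≤ 3 / 2 := by
      refine (H61.norm_le h0 (by rw [Complex.norm_exp, Complex.neg_re])).trans ?_
      have := nz_le h0 h
      rw [div_le_iff₀ h0]
      linarith
    have n2 : ‖1 / z‖ ≤ 1 := by
      rw [norm_div, norm_one, div_le_one hzn]
      exact h1.le
    have n3 : ‖(1 / 2 : ℂ)‖ = 1 / 2 := by norm_num
    have a1 := norm_add_le (Complex.exp (-z) / (1 - Complex.exp (-z)) - 1 / z) (1 / 2)
    have a2 := norm_sub_le (Complex.exp (-z) / (1 - Complex.exp (-z))) (1 / z)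
    rw [n3] at a1
    linarith

theorem t_R0S (h : S_LP) : S_R0S := by
  intro t θ ht hθ
  have hq : ‖qq t θ‖ < 1 := by
    rw [H61.norm_qq, Real.exp_lt_one_iff]; linarith
  obtain ⟨hs, hR⟩ := H61.R0_eq h hq
  set τ : ℂ := tau t θ with hτ
  have hre : τ.re = t := by simp [hτ, tau]
  have him : τ.im = -θ := by simp [hτ, tau]
  have hτ0 : τ ≠ 0 := by
    intro h0
    rw [h0] at hre
    simp at hre
    linarith
  have hτn : ‖τ‖ ≤ 3 / 2 * t := by
    have := nz_le (z := τ) (by rw [hre]; exact ht) (by rw [hre, him, abs_neg]; exact hθ)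
    rwa [hre] at this
  -- coefficients
  set c : ℕ → ℂ := fun m => (-1 / 3 : ℂ) ^ (m + 1) / ((m : ℂ) + 1) with hc
  set er : ℕ → ℂ := fun m => qq t θ ^ (m + 1) / (1 - qq t θ ^ (m + 1)) -
    1 / (((m : ℂ) + 1) * τ) + 1 / 2 with her
  have hm1 : ∀ m : ℕ, ((m : ℂ) + 1) ≠ 0 := fun m => Nat.cast_add_one_ne_zero m
  have hmn : ∀ m : ℕ, ‖((m : ℂ) + 1)‖ = (m : ℝ) + 1 := by
    intro m
    have : ((m : ℂ) + 1) = ((m + 1 : ℕ) : ℂ) := by push_cast; ring
    rw [this, Complex.norm_natCast]; push_cast; ring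
  have hcn : ∀ m : ℕ, ‖c m‖ = (1 / 3 : ℝ) ^ (m + 1) / ((m : ℝ) + 1) := by
    intro m
    simp only [hc, norm_div, norm_pow, hmn, norm_neg, norm_one]
    norm_num
  have herr : ∀ m : ℕ, ‖er m‖ ≤ 3 * (((m : ℝ) + 1) * ‖τ‖) := by
    intro m
    have e1 : qq t θ ^ (m + 1) = Complex.exp (-(((m : ℂ) + 1) * τ)) := by
      rw [qq, ← Complex.exp_nat_mul]
      push_cast
      rw [← hτ]
      congr 1
      ring
    have e2 : (((m : ℂ) + 1) * τ).re = ((m : ℝ) + 1) * t := by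
      have : ((m : ℂ) + 1) = (((m : ℝ) + 1 : ℝ) : ℂ) := by push_cast; ring
      rw [this, Complex.re_ofReal_mul, hre]
    have e3 : (((m : ℂ) + 1) * τ).im = ((m : ℝ) + 1) * (-θ) := by
      have : ((m : ℂ) + 1) = (((m : ℝ) + 1 : ℝ) : ℂ) := by push_cast; ring
      rw [this, Complex.im_ofReal_mul, him]
    have hmp : (0 : ℝ) < (m : ℝ) + 1 := by positivity
    have h1 := key (z := ((m : ℂ) + 1) * τ) (by rw [e2]; positivity) (by
      rw [e2, e3, abs_mul, abs_of_pos hmp, abs_neg]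
      exact mul_le_mul_of_nonneg_left hθ hmp.le)
    rw [norm_mul, hmn] at h1
    simp only [her]
    rw [e1]
    exact h1
  have hg : HasSum (fun m : ℕ => (1 / 3 : ℝ) ^ (m + 1)) (1 / 2) := by
    have h1 := (hasSum_geometric_of_lt_one (by norm_num : (0 : ℝ) ≤ 1 / 3)
      (by norm_num)).mul_left (1 / 3)
    have e : (fun m : ℕ => (1 / 3 : ℝ) * (1 / 3) ^ m) = fun m : ℕ => (1 / 3 : ℝ) ^ (m + 1) := by
      funext m; rw [pow_succ]; ring
    rw [e] at h1
    norm_num at h1 ⊢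
    exact h1
  have hce : ∀ m, ‖c m * er m‖ ≤ (3 * ‖τ‖) * (1 / 3 : ℝ) ^ (m + 1) := by
    intro m
    rw [norm_mul, hcn]
    calc (1 / 3 : ℝ) ^ (m + 1) / ((m : ℝ) + 1) * ‖er m‖ ≤
        (1 / 3 : ℝ) ^ (m + 1) / ((m : ℝ) + 1) * (3 * (((m : ℝ) + 1) * ‖τ‖)) :=
          mul_le_mul_of_nonneg_left (herr m) (by positivity)
      _ = _ := by field_simp
  have hces : Summable fun m => c m * er m :=
    Summable.of_norm_bounded (hg.summable.mul_left (3 * ‖τ‖)) hce
  have hcs : HasSum c (-Complex.log (4 / 3)) := by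
    have h1 := Complex.hasSum_taylorSeries_neg_log' (z := (-1 / 3 : ℂ)) (by norm_num)
    have e : (1 - (-1 / 3) : ℂ) = 4 / 3 := by norm_num
    rw [e] at h1
    exact h1
  have hells : Summable fun m : ℕ => (-1 : ℝ) ^ m * (1 / 3 : ℝ) ^ (m + 1) / ((m : ℝ) + 1) ^ 2 := by
    refine Summable.of_norm_bounded hg.summable fun m => ?_
    rw [norm_div, norm_mul, norm_pow, norm_neg, norm_one, one_pow, one_mul, Real.norm_eq_abs,
      Real.norm_eq_abs, abs_of_pos (by positivity), abs_of_pos (by positivity)]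
    apply div_le_self (by positivity)
    have : (0 : ℝ) ≤ m := Nat.cast_nonneg m
    nlinarith
  have hell : HasSum (fun m => c m * (1 / (((m : ℂ) + 1) * τ))) (-((ell : ℂ) / τ)) := by
    have h1 : HasSum (fun m : ℕ => (((-1 : ℝ) ^ m * (1 / 3 : ℝ) ^ (m + 1) /
        ((m : ℝ) + 1) ^ 2 : ℝ) : ℂ)) (ell : ℂ) := by
      rw [Complex.hasSum_ofReal]
      exact hells.hasSum
    have h2 := (h1.mul_left (-1 / τ))
    have e : (fun m : ℕ => (-1 / τ) * (((-1 : ℝ) ^ m * (1 / 3 : ℝ) ^ (m + 1) /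
        ((m : ℝ) + 1) ^ 2 : ℝ) : ℂ)) = fun m => c m * (1 / (((m : ℂ) + 1) * τ)) := by
      funext m
      simp only [hc]
      have e3 : (-1 / 3 : ℂ) ^ (m + 1) = -((-1) ^ m * (1 / 3) ^ (m + 1)) := by
        have : (-1 / 3 : ℂ) = (-1) * (1 / 3) := by ring
        rw [this, mul_pow, pow_succ (-1 : ℂ) m]
        ring
      rw [e3]
      push_cast
      have := hm1 m
      field_simp
    rw [e] at h2
    have e4 : (-1 / τ) * (ell : ℂ) = -((ell : ℂ) / τ) := by ring
    rw [e4] at h2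
    exact h2
  have hz : ∀ m, H61.zt (qq t θ) m =
      c m * (1 / (((m : ℂ) + 1) * τ)) - 1 / 2 * c m + c m * er m := by
    intro m
    simp only [H61.zt, hc, her]
    ring
  have hS : HasSum (fun m => H61.zt (qq t θ) m)
      (-((ell : ℂ) / τ) - 1 / 2 * (-Complex.log (4 / 3)) + ∑' m, c m * er m) := by
    have h1 := (hell.sub (hcs.mul_left (1 / 2))).add hces.hasSum
    refine h1.congr_fun fun m => ?_
    exact hz m
  refine ⟨-∑' m, c m * er m, ?_, ?_⟩
  · rw [norm_neg]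
    have h1 : ‖∑' m, c m * er m‖ ≤ (3 * ‖τ‖) * (1 / 2) :=
      tsum_of_norm_bounded (hg.mul_left (3 * ‖τ‖)) hce
    linarith
  · rw [hR, hS.tsum_eq]
    have hlog : Complex.log (4 / 3) = ((Real.log (4 / 3) : ℝ) : ℂ) := by
      rw [Complex.ofReal_log (by norm_num)]
      push_cast
      rfl
    rw [hlog]
    have e1 : -(-((ell : ℂ) / τ) - 1 / 2 * (-((Real.log (4 / 3) : ℝ) : ℂ)) + ∑' m, c m * er m) =
        ((-(Real.log (4 / 3) / 2) : ℝ) : ℂ) + ((ell : ℂ) / τ + -∑' m, c m * er m) := by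
      push_cast
      ring
    rw [e1, Complex.exp_add, ← mul_assoc, ← Complex.ofReal_exp]
    congr 1
    have e2 : (4 / 3 : ℝ) * Real.exp (-(Real.log (4 / 3) / 2)) = 2 / Real.sqrt 3 := by
      set E := Real.exp (-(Real.log (4 / 3) / 2)) with hE
      have hE0 : 0 < E := Real.exp_pos _
      have hE2 : E ^ 2 = 3 / 4 := by
        rw [hE, ← Real.exp_nat_mul]
        have : ((2 : ℕ) : ℝ) * -(Real.log (4 / 3) / 2) = -Real.log (4 / 3) := by
          push_cast; ring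
        rw [this, Real.exp_neg, Real.exp_log (by norm_num)]
        norm_num
      have hs3 : 0 < Real.sqrt 3 := Real.sqrt_pos.2 (by norm_num)
      have hs32 : Real.sqrt 3 ^ 2 = 3 := Real.sq_sqrt (by norm_num)
      have a1 : (4 / 3 * E) ^ 2 = (2 / Real.sqrt 3) ^ 2 := by
        rw [mul_pow, hE2, div_pow 2 (Real.sqrt 3), hs32]; norm_num
      exact (pow_left_inj₀ (by positivity) (by positivity) (by norm_num)).1 a1
    rw [← e2]
    push_cast
    rfl

end K1H72.OP
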